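import Pool.Agent.N888.TF.Greedy

set_option autoImplicit false

/-!
# The strong fractional choice number of triangle-free planar graphs is below 4
-/

namespace Pool.Agent.Results.MP_143092_co.BelowFour

open Pool.Agent.N888.TF (IsPlanar noKMinor_of_planar main greedy)

/-- `G` is `(a, b)`-choosable. -/
def Choosable {V : Type} (G : SimpleGraph V) (a b : ℕ) : Prop :=
  ∀ L : V → Finset ℕ, (∀ v, (L v).card = a) →
    ∃ f : V → Finset ℕ, (∀ v, f v ⊆ L v ∧ (f v).card = b) ∧
      ∀ u v, G.Adj u v → Disjoint (f u) (f v)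

/-- `G` is strongly fractional `α`-choosable. -/
def StronglyFractional {V : Type} (G : SimpleGraph V) (α : ℝ) : Prop :=
  ∀ m : ℕ, 1 ≤ m → Choosable G ⌈α * m⌉₊ m

/-- the strong fractional choice number -/
noncomputable def chf {V : Type} (G : SimpleGraph V) : ℝ :=
  sInf {α : ℝ | 0 < α ∧ StronglyFractional G α}

/-- the class of finite triangle-free planar graphs: the set of the strong fractional choice
numbers of its members -/
def values : Set ℝ :=
  {x | ∃ (V : Type) (_ : Fintype V) (G : SimpleGraph V), G.CliqueFree 3 ∧ IsPlanar G ∧ x = chf G}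

/-- There is `α < 4` such that every finite triangle-free planar graph is strongly fractional
`α`-choosable; hence the strong fractional choice number of the class is less than `4`. -/
theorem result : ∃ α : ℝ, α < 4 ∧
    (∀ (V : Type) [Fintype V] (G : SimpleGraph V), G.CliqueFree 3 → IsPlanar G →
      StronglyFractional G α ∧ chf G ≤ α) ∧
    values.Nonempty ∧ BddAbove values ∧ sSup values ≤ α := by
  obtain ⟨N, hN0, hN⟩ := main
  have hNr : (0 : ℝ) < N := by exact_mod_cast hN0
  have hN1 : (1 : ℝ) ≤ N := by exact_mod_cast hN0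
  set α : ℝ := 4 - 1 / (2 * N) with hα
  have hhalf : 1 / (2 * (N : ℝ)) ≤ 1 / 2 := by
    apply one_div_le_one_div_of_le (by norm_num); linarith
  have hα0 : 0 < α := by rw [hα]; linarith
  have hSF : ∀ (V : Type) [Fintype V] (G : SimpleGraph V), G.CliqueFree 3 → IsPlanar G →
      StronglyFractional G α := by
    intro V _ G hfree hpl m hm L hL
    have hno := noKMinor_of_planar hpl
    have hmr : (1 : ℝ) ≤ m := by exact_mod_cast hm
    by_cases hmN : N ≤ m
    · apply hN m hmN V G hfree hno L
      intro v
      rw [hL v]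
      refine le_trans ?_ (Nat.le_ceil _)
      have : (m : ℝ) / (2 * N) ≤ m / N := by
        apply div_le_div_of_nonneg_left (by linarith) hNr; linarith
      have e : α * m = 4 * m - m / (2 * N) := by rw [hα]; ring
      rw [e]; linarith
    · push Not at hmN
      apply greedy G (Pool.Agent.TH455.free_sparse hfree hno) m L
      intro v
      rw [hL v]
      have h1 : ((4 * m - 1 : ℕ) : ℝ) < α * m := by
        rw [Nat.cast_sub (by omega)]
        push_cast
        have h2 : (m : ℝ) / (2 * N) ≤ 1 / 2 := by
          rw [div_le_div_iff₀ (by positivity) (by norm_num)]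
          have : (m : ℝ) ≤ N := by exact_mod_cast hmN.le
          linarith
        have e : α * m = 4 * m - m / (2 * N) := by rw [hα]; ring
        rw [e]; linarith
      have h3 := Nat.lt_ceil.2 h1
      omega
  have hch : ∀ (V : Type) [Fintype V] (G : SimpleGraph V), G.CliqueFree 3 → IsPlanar G →
      chf G ≤ α := by
    intro V _ G hfree hpl
    exact csInf_le ⟨0, fun x hx => hx.1.le⟩ ⟨hα0, hSF V G hfree hpl⟩
  have hne : values.Nonempty := by
    refine ⟨chf (⊥ : SimpleGraph Unit), Unit, inferInstance, ⊥, ?_, ?_, rfl⟩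
    · exact SimpleGraph.cliqueFree_bot (by norm_num)
    · refine ⟨fun _ => 0, fun _ _ _ => 0, fun _ _ _ => rfl, ?_, ?_⟩
      · intro u v huv; exact absurd huv (by simp)
      · intro u v x y huv; exact absurd huv (by simp)
  have hb : ∀ x ∈ values, x ≤ α := by
    rintro x ⟨V, _, G, h1, h2, rfl⟩
    exact hch V G h1 h2
  refine ⟨α, ?_, fun V _ G h1 h2 => ⟨hSF V G h1 h2, hch V G h1 h2⟩, hne, ⟨α, hb⟩, csSup_le hne hb⟩
  have : 0 < 1 / (2 * (N : ℝ)) := by positivity
  rw [hα]; linarith

end Pool.Agent.Results.MP_143092_co.BelowFour
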